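import Mathlib
import Pool.Agent.Helper12.PF.Defs

/-!
# Module AC of MP_a61b9a_an (helper34): an algebraic function is never the exponential of a
nonconstant linear form.
-/

open Helper12.PF

namespace Helper34.AC

open MvPolynomial

variable {n : ℕ}

/-- derivatives lower the degree -/
lemma degreeOf_pderiv_lt {σ : Type*} (j : σ) (f : MvPolynomial σ ℂ)
    (h : pderiv j f ≠ 0) : degreeOf j (pderiv j f) < degreeOf j f := by
  classical
  have key : ∀ m ∈ (pderiv j f).support, m j + 1 ≤ degreeOf j f := by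
    intro m hm
    have h1 : coeff m (pderiv j f) ≠ 0 := by simpa [mem_support_iff] using hm
    rw [coeff_pderiv] at h1
    have h2 : coeff (m + Finsupp.single j 1) f ≠ 0 := fun h0 => h1 (by rw [h0, zero_mul])
    have h3 := (degreeOf_le_iff (n := j) (f := f) (d := degreeOf j f)).1 le_rfl
      (m + Finsupp.single j 1) (by simpa [mem_support_iff] using h2)
    simpa using h3
  obtain ⟨m, hm⟩ := (support_nonempty (p := pderiv j f)).2 h
  have h0 : 0 < degreeOf j f := lt_of_lt_of_le (Nat.succ_pos _) (key m hm)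
  rw [degreeOf_lt_iff h0]
  intro m hm
  exact key m hm

/-- the logarithmic derivative of a nonzero rational function is never a nonzero constant -/
lemma no_log {σ : Type*} (j : σ) (a b : MvPolynomial σ ℂ) (κ : ℂ) (ha : a ≠ 0) (hb : b ≠ 0)
    (hκ : κ ≠ 0) (h : a * pderiv j b - b * pderiv j a = C κ * (a * b)) : False := by
  classical
  have hab : a * b ≠ 0 := mul_ne_zero ha hb
  have hr : degreeOf j (C κ * (a * b)) = degreeOf j a + degreeOf j b := by
    rw [degreeOf_mul_eq (by simpa using hκ) hab, degreeOf_mul_eq ha hb, degreeOf_C, zero_add]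
  have hne : C κ * (a * b) ≠ 0 := mul_ne_zero (by simpa using hκ) hab
  -- bounds of the two terms
  have h1 : ∀ x y : MvPolynomial σ ℂ, x ≠ 0 → x * pderiv j y ≠ 0 →
      degreeOf j (x * pderiv j y) < degreeOf j x + degreeOf j y := by
    intro x y hx hxy
    have hy : pderiv j y ≠ 0 := right_ne_zero_of_mul hxy
    rw [degreeOf_mul_eq hx hy]
    have := degreeOf_pderiv_lt j y hy
    omega
  have h2 : degreeOf j (a * pderiv j b - b * pderiv j a) < degreeOf j a + degreeOf j b := by
    by_cases hA : a * pderiv j b = 0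
    · by_cases hB : b * pderiv j a = 0
      · exfalso
        rw [hA, hB, sub_zero] at h
        exact hne h.symm
      · rw [hA, zero_sub, degreeOf_neg]
        have := h1 b a hb hB
        omega
    · by_cases hB : b * pderiv j a = 0
      · rw [hB, sub_zero]
        exact h1 a b ha hA
      · have e1 := h1 a b ha hA
        have e2 := h1 b a hb hB
        have e3 := degreeOf_sub_le j (a * pderiv j b) (b * pderiv j a)
        have e4 : max (degreeOf j (a * pderiv j b)) (degreeOf j (b * pderiv j a)) <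
          degreeOf j a + degreeOf j b := max_lt e1 (by omega)
        exact lt_of_le_of_lt e3 e4
  rw [h, hr] at h2
  exact lt_irrefl _ h2

/-- embedding of the polynomials not depending on the variable `0` -/
noncomputable def iota : MvPolynomial (Fin n) ℂ →ₐ[ℂ] MvPolynomial (Fin (n+1)) ℂ :=
  rename Fin.succ

lemma iota_ne (g : MvPolynomial (Fin n) ℂ) (hg : g ≠ 0) : iota g ≠ 0 := by
  intro h
  apply hg
  apply rename_injective _ (Fin.succ_injective n)
  simpa [iota] using h

lemma pderiv_zero_iota (g : MvPolynomial (Fin n) ℂ) : pderiv 0 (iota g) = 0 := by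
  apply pderiv_eq_zero_of_notMem_vars
  intro h
  classical
  have := vars_rename (Fin.succ : Fin n → Fin (n+1)) g h
  simp at this

lemma degreeOf_iota (g : MvPolynomial (Fin n) ℂ) : degreeOf 0 (iota g) = 0 := by
  classical
  have : (0 : Fin (n+1)) ∉ (iota g).vars := by
    intro h
    have := vars_rename (Fin.succ : Fin n → Fin (n+1)) g h
    simp at this
  rw [vars_def] at this
  rw [degreeOf_def]
  simpa [Multiset.count_eq_zero] using this

lemma pderiv_succ_iota (j : Fin n) (g : MvPolynomial (Fin n) ℂ) :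
    pderiv j.succ (iota g) = iota (pderiv j g) :=
  pderiv_rename (Fin.succ_injective n) j g

/-- quotients of algebraic elements satisfy a homogeneous relation -/
lemma alg_frac {A B : Type*} [CommRing A] [IsDomain A] [CommRing B] [IsDomain B] [Algebra A B]
    (x0 x1 : B) (h0 : IsAlgebraic A x0) (h1 : IsAlgebraic A x1) (hx0 : x0 ≠ 0) :
    ∃ (d : ℕ) (g : ℕ → A), (∃ k, k ≤ d ∧ g k ≠ 0) ∧
      ∑ k ∈ Finset.range (d+1), algebraMap A B (g k) * (x1 ^ k * x0 ^ (d - k)) = 0 := by
  let K := FractionRing B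
  have hinj : Function.Injective (algebraMap B K) := IsFractionRing.injective B K
  set a0 : K := algebraMap B K x0 with ha0
  set a1 : K := algebraMap B K x1 with ha1
  have ha0ne : a0 ≠ 0 := by
    rw [ha0]
    intro h
    exact hx0 (hinj (by rw [h, map_zero]))
  have e0 : IsAlgebraic A a0 := h0.algebraMap
  have e1 : IsAlgebraic A a1 := h1.algebraMap
  have hu : IsAlgebraic A (a1 * a0⁻¹) := e1.mul e0.inv
  obtain ⟨Q, hQ0, hQ⟩ := hu
  refine ⟨Q.natDegree, fun k => Q.coeff k, ⟨Q.natDegree, le_rfl, ?_⟩, ?_⟩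
  · exact Polynomial.leadingCoeff_ne_zero.2 hQ0
  · apply hinj
    rw [map_zero, map_sum]
    have h1 := hQ
    rw [Polynomial.aeval_eq_sum_range] at h1
    have h2 : a0 ^ Q.natDegree * ∑ i ∈ Finset.range (Q.natDegree + 1),
        Q.coeff i • (a1 * a0⁻¹) ^ i = 0 := by rw [h1, mul_zero]
    rw [Finset.mul_sum] at h2
    rw [← h2]
    refine Finset.sum_congr rfl fun k hk => ?_
    have hk' : k ≤ Q.natDegree := by
      have := Finset.mem_range.1 hk
      omega
    rw [Algebra.smul_def, IsScalarTower.algebraMap_apply A B K, map_mul, map_mul, map_pow,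
      map_pow, ← ha0, ← ha1]
    have : a0 ^ Q.natDegree = a0 ^ k * a0 ^ (Q.natDegree - k) := by
      rw [← pow_add]; congr 1; omega
    rw [this, mul_pow, inv_pow]
    have hak : a0 ^ k ≠ 0 := pow_ne_zero k ha0ne
    have e5 : a0 ^ k * (a0 ^ k)⁻¹ = 1 := mul_inv_cancel₀ hak
    linear_combination (-(algebraMap B K (algebraMap A B (Q.coeff k)) * a1 ^ k *
      a0 ^ (Q.natDegree - k))) * e5

section
variable {p : MvPolynomial (Fin (n+1)) ℂ}

lemma not_dvd_iota (h0 : pderiv 0 p ≠ 0) (g : MvPolynomial (Fin n) ℂ) (hg : g ≠ 0) :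
    ¬ p ∣ iota g := by
  rintro ⟨q, hq⟩
  have hne : p * q ≠ 0 := by rw [← hq]; exact iota_ne g hg
  have h1 : degreeOf 0 (p * q) = degreeOf 0 p + degreeOf 0 q :=
    degreeOf_mul_eq (left_ne_zero_of_mul hne) (right_ne_zero_of_mul hne)
  rw [← hq, degreeOf_iota] at h1
  have h2 := degreeOf_pderiv_lt 0 p h0
  omega

lemma not_dvd_d0 (h0 : pderiv 0 p ≠ 0) : ¬ p ∣ pderiv 0 p := by
  rintro ⟨q, hq⟩
  have hne : p * q ≠ 0 := by rw [← hq]; exact h0
  have h1 : degreeOf 0 (p * q) = degreeOf 0 p + degreeOf 0 q :=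
    degreeOf_mul_eq (left_ne_zero_of_mul hne) (right_ne_zero_of_mul hne)
  rw [← hq] at h1
  have h2 := degreeOf_pderiv_lt 0 p h0
  omega

/-- homogeneous relation of degree `d` -/
noncomputable def Hsum (N0 N1 : MvPolynomial (Fin (n+1)) ℂ) (d : ℕ)
    (g : ℕ → MvPolynomial (Fin n) ℂ) : MvPolynomial (Fin (n+1)) ℂ :=
  ∑ k ∈ Finset.range (d+1), iota (g k) * (N1 ^ k * N0 ^ (d - k))

/-- every class is algebraic over the polynomials not depending on the variable `0` -/
lemma exists_rel (hp : Prime p) (N0 N1 : MvPolynomial (Fin (n+1)) ℂ)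
    (hN0 : ¬ p ∣ N0) :
    ∃ d, ∃ g : ℕ → MvPolynomial (Fin n) ℂ, (∃ k, k ≤ d ∧ g k ≠ 0) ∧ p ∣ Hsum N0 N1 d g := by
  classical
  set I : Ideal (MvPolynomial (Fin (n+1)) ℂ) := Ideal.span {p} with hI
  have hIp : I.IsPrime := (Ideal.span_singleton_prime hp.ne_zero).2 hp
  let B := MvPolynomial (Fin (n+1)) ℂ ⧸ I
  have : IsDomain B := Ideal.Quotient.isDomain I
  let f : MvPolynomial (Fin n) ℂ →+* B := (Ideal.Quotient.mk I).comp (iota (n := n)).toRingHom
  let _ : Algebra (MvPolynomial (Fin n) ℂ) B := f.toAlgebra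
  have hf : ∀ a, algebraMap (MvPolynomial (Fin n) ℂ) B a = Ideal.Quotient.mk I (iota a) :=
    fun a => rfl
  have hmk : ∀ q : MvPolynomial (Fin (n+1)) ℂ, (Ideal.Quotient.mk I q = 0) ↔ p ∣ q := by
    intro q
    rw [Ideal.Quotient.eq_zero_iff_mem, hI, Ideal.mem_span_singleton]
  -- evaluation at theta
  have hev : ∀ q : MvPolynomial (Fin (n+1)) ℂ,
      Polynomial.aeval (Ideal.Quotient.mk I (X 0) : B) (finSuccEquiv ℂ n q) =
        (Ideal.Quotient.mk I q : B) := by
    intro q
    induction q using MvPolynomial.induction_on with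
    | C a =>
      have : finSuccEquiv ℂ n (C a) = Polynomial.C (C a) := by
        simp [finSuccEquiv_apply]
      rw [this, Polynomial.aeval_C, hf]
      congr 1
      simp [iota]
    | add p q hp hq => rw [map_add, map_add, map_add, hp, hq]
    | mul_X q i hq =>
      rw [map_mul, map_mul, map_mul, hq]
      congr 1
      refine Fin.cases ?_ (fun i => ?_) i
      · rw [finSuccEquiv_X_zero, Polynomial.aeval_X]
      · rw [finSuccEquiv_X_succ, Polynomial.aeval_C, hf]
        congr 1
        simp [iota]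
  have hθ : IsAlgebraic (MvPolynomial (Fin n) ℂ) (Ideal.Quotient.mk I (X 0) : B) := by
    refine ⟨finSuccEquiv ℂ n p, ?_, ?_⟩
    · simpa using hp.ne_zero
    · rw [hev, hmk]
  have halg : ∀ q : MvPolynomial (Fin (n+1)) ℂ,
      IsAlgebraic (MvPolynomial (Fin n) ℂ) (Ideal.Quotient.mk I q : B) := by
    intro q
    induction q using MvPolynomial.induction_on with
    | C a =>
      have : (Ideal.Quotient.mk I (C a) : B) = algebraMap (MvPolynomial (Fin n) ℂ) B (C a) := by
        rw [hf]; congr 1; simp [iota]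
      rw [this]
      exact isAlgebraic_algebraMap _
    | add p q hp hq => rw [map_add]; exact hp.add hq
    | mul_X q i hq =>
      rw [map_mul]
      refine hq.mul ?_
      refine Fin.cases ?_ (fun i => ?_) i
      · exact hθ
      · have : (Ideal.Quotient.mk I (X i.succ) : B) =
            algebraMap (MvPolynomial (Fin n) ℂ) B (X i) := by
          rw [hf]; congr 1; simp [iota]
        rw [this]
        exact isAlgebraic_algebraMap _
  have hne : (Ideal.Quotient.mk I N0 : B) ≠ 0 := fun h => hN0 ((hmk N0).1 h)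
  obtain ⟨d, g, hg, hsum⟩ := alg_frac (Ideal.Quotient.mk I N0 : B) (Ideal.Quotient.mk I N1 : B)
    (halg N0) (halg N1) hne
  refine ⟨d, g, hg, ?_⟩
  rw [← hmk, Hsum, map_sum, ← hsum]
  refine Finset.sum_congr rfl fun k _ => ?_
  rw [map_mul, map_mul, map_pow, map_pow, hf]

end

/-- the tangential derivation as a derivation -/
noncomputable def D (p : MvPolynomial (Fin (n+1)) ℂ) (j : Fin n) :
    Derivation ℂ (MvPolynomial (Fin (n+1)) ℂ) (MvPolynomial (Fin (n+1)) ℂ) :=
  (pderiv 0 p) • (pderiv j.succ : Derivation ℂ (MvPolynomial (Fin (n+1)) ℂ) _) -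
    (pderiv j.succ p) • (pderiv 0 : Derivation ℂ (MvPolynomial (Fin (n+1)) ℂ) _)

lemma D_apply (p : MvPolynomial (Fin (n+1)) ℂ) (j : Fin n) (q : MvPolynomial (Fin (n+1)) ℂ) :
    D p j q = tau p j q := by
  simp [D, tau]

lemma D_self (p : MvPolynomial (Fin (n+1)) ℂ) (j : Fin n) : D p j p = 0 := by
  rw [D_apply, tau]; ring

lemma D_iota (p : MvPolynomial (Fin (n+1)) ℂ) (j : Fin n) (g : MvPolynomial (Fin n) ℂ) :
    D p j (iota g) = pderiv 0 p * iota (pderiv j g) := by
  rw [D_apply, tau, pderiv_zero_iota, pderiv_succ_iota]; ring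

lemma D_dvd (p : MvPolynomial (Fin (n+1)) ℂ) (j : Fin n) (q : MvPolynomial (Fin (n+1)) ℂ)
    (h : p ∣ q) : p ∣ D p j q := by
  obtain ⟨r, rfl⟩ := h
  rw [Derivation.leibniz, D_self]
  simp

lemma D_mono (p N0 N1 : MvPolynomial (Fin (n+1)) ℂ) (j : Fin n) (a b : ℕ) :
    N0 * N1 * D p j (N1 ^ a * N0 ^ b) =
      N1 ^ a * N0 ^ b * ((a : MvPolynomial (Fin (n+1)) ℂ) * (N0 * D p j N1) +
        (b : MvPolynomial (Fin (n+1)) ℂ) * (N1 * D p j N0)) := by
  rw [Derivation.leibniz, Derivation.leibniz_pow, Derivation.leibniz_pow]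
  simp only [smul_eq_mul, nsmul_eq_mul]
  rcases a with _ | a <;> rcases b with _ | b <;> simp [pow_succ] <;> ring

theorem ac : ST_AC := by
  intro n p N0 N1 j c hp h0 hN0 hN1 hc hdiv
  classical
  rw [← D_apply, ← D_apply] at hdiv
  have hex := exists_rel hp N0 N1 hN0
  -- minimal degree
  set d := Nat.find hex with hd
  obtain ⟨g, ⟨k0, hk0, hgk0⟩, hg⟩ := Nat.find_spec hex
  rw [← hd] at hk0 hg
  have hmin : ∀ d' < d, ∀ g : ℕ → MvPolynomial (Fin n) ℂ, p ∣ Hsum N0 N1 d' g →
      ∀ k ≤ d', g k = 0 := by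
    intro d' hd' g hg k hk
    by_contra hne
    exact Nat.find_min hex hd' ⟨g, ⟨k, hk, hne⟩, hg⟩
  have hdpos : d ≠ 0 := by
    intro h
    rw [h] at hg hk0
    have hk00 : k0 = 0 := by omega
    subst hk00
    simp only [Hsum, zero_add, Finset.range_one, Finset.sum_singleton, pow_zero, Nat.sub_self,
      mul_one] at hg
    exact not_dvd_iota h0 _ hgk0 hg
  obtain ⟨e, he⟩ := Nat.exists_eq_succ_of_ne_zero hdpos
  rw [Nat.succ_eq_add_one] at he
  rw [he] at hg hk0 hmin
  -- dropping the top or the bottom coefficient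
  have htop : ∀ r : ℕ → MvPolynomial (Fin n) ℂ, p ∣ Hsum N0 N1 (e+1) r → r (e+1) = 0 →
      ∀ k ≤ e, r k = 0 := by
    intro r hr hr0
    have h1 : Hsum N0 N1 (e+1) r = N0 * Hsum N0 N1 e r := by
      unfold Hsum
      rw [Finset.sum_range_succ, hr0, map_zero, zero_mul, add_zero, Finset.mul_sum]
      refine Finset.sum_congr rfl fun k hk => ?_
      have hk' := Finset.mem_range.1 hk
      have : e + 1 - k = (e - k) + 1 := by omega
      rw [this, pow_succ]
      ring
    rw [h1] at hr
    exact hmin e (by omega) r ((hp.dvd_or_dvd hr).resolve_left hN0)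
  have hbot : ∀ r : ℕ → MvPolynomial (Fin n) ℂ, p ∣ Hsum N0 N1 (e+1) r → r 0 = 0 →
      ∀ k ≤ e, r (k+1) = 0 := by
    intro r hr hr0
    have h1 : Hsum N0 N1 (e+1) r = N1 * Hsum N0 N1 e (fun k => r (k+1)) := by
      unfold Hsum
      rw [Finset.sum_range_succ', hr0, map_zero, zero_mul, add_zero, Finset.mul_sum]
      refine Finset.sum_congr rfl fun k hk => ?_
      have hk' := Finset.mem_range.1 hk
      have : e + 1 - (k+1) = e - k := by omega
      rw [this, pow_succ]
      ring
    rw [h1] at hr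
    exact hmin e (by omega) (fun k => r (k+1)) ((hp.dvd_or_dvd hr).resolve_left hN1)
  have hgtop : g (e+1) ≠ 0 := by
    intro h
    rcases Nat.lt_or_ge e k0 with hlt | hle
    · have : k0 = e + 1 := by omega
      rw [this] at hgk0
      exact hgk0 h
    · exact hgk0 (htop g hg h k0 hle)
  have hgbot : g 0 ≠ 0 := by
    intro h
    rcases Nat.eq_zero_or_pos k0 with hz | hpos
    · rw [hz] at hgk0
      exact hgk0 h
    · have := hbot g hg h (k0 - 1) (by omega)
      rw [Nat.sub_add_cancel hpos] at this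
      exact hgk0 this
  -- the derived relation
  set h : ℕ → MvPolynomial (Fin n) ℂ := fun k => pderiv j (g k) - C (c * k) * g k with hh
  have hderiv : p ∣ Hsum N0 N1 (e+1) h := by
    have hid : N0 * N1 * D p j (Hsum N0 N1 (e+1) g) =
        N0 * N1 * pderiv 0 p * Hsum N0 N1 (e+1) h +
        ((e+1 : ℕ) : MvPolynomial (Fin (n+1)) ℂ) * (N1 * D p j N0) * Hsum N0 N1 (e+1) g +
        (N0 * D p j N1 - N1 * D p j N0 + C c * N0 * N1 * pderiv 0 p) *
          ∑ k ∈ Finset.range (e+1+1), (k : MvPolynomial (Fin (n+1)) ℂ) *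
            (iota (g k) * (N1 ^ k * N0 ^ (e+1-k))) := by
      unfold Hsum
      rw [map_sum, Finset.mul_sum, Finset.mul_sum, Finset.mul_sum, Finset.mul_sum,
        ← Finset.sum_add_distrib, ← Finset.sum_add_distrib]
      refine Finset.sum_congr rfl fun k hk => ?_
      have hk' : k ≤ e + 1 := by
        have := Finset.mem_range.1 hk
        omega
      obtain ⟨m, hm⟩ := Nat.exists_eq_add_of_le hk'
      have hm' : e + 1 - k = m := by omega
      rw [hm', hm, Derivation.leibniz, smul_eq_mul, smul_eq_mul, mul_add]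
      have e1 : N0 * N1 * (iota (g k) * D p j (N1 ^ k * N0 ^ m)) =
          iota (g k) * (N0 * N1 * D p j (N1 ^ k * N0 ^ m)) := by ring
      rw [e1, D_mono, D_iota]
      have e2 : iota (h k) = iota (pderiv j (g k)) -
          C c * (k : MvPolynomial (Fin (n+1)) ℂ) * iota (g k) := by
        simp only [hh, map_sub, map_mul]
        have : (iota (C c * C (k : ℂ)) : MvPolynomial (Fin (n+1)) ℂ) =
            C c * (k : MvPolynomial (Fin (n+1)) ℂ) := by
          simp [iota]
        rw [← this, map_mul]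
      rw [e2]
      push_cast
      ring
    have hl : p ∣ N0 * N1 * D p j (Hsum N0 N1 (e+1) g) :=
      Dvd.dvd.mul_left (D_dvd p j _ hg) _
    rw [hid] at hl
    have hl2 : p ∣ N0 * N1 * pderiv 0 p * Hsum N0 N1 (e+1) h := by
      have h3 : p ∣ ((e+1 : ℕ) : MvPolynomial (Fin (n+1)) ℂ) * (N1 * D p j N0) *
        Hsum N0 N1 (e+1) g := Dvd.dvd.mul_left hg _
      have h4 : p ∣ (N0 * D p j N1 - N1 * D p j N0 + C c * N0 * N1 * pderiv 0 p) *
          ∑ k ∈ Finset.range (e+1+1), (k : MvPolynomial (Fin (n+1)) ℂ) *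
            (iota (g k) * (N1 ^ k * N0 ^ (e+1-k))) := Dvd.dvd.mul_right hdiv _
      have h5 := (dvd_add_left h4).1 hl
      exact (dvd_add_left h3).1 h5
    rcases hp.dvd_or_dvd hl2 with h6 | h6
    · exfalso
      rcases hp.dvd_or_dvd h6 with h7 | h7
      · rcases hp.dvd_or_dvd h7 with h8 | h8
        · exact hN0 h8
        · exact hN1 h8
      · exact not_dvd_d0 h0 h7
    · exact h6
  -- elimination
  have helim : p ∣ Hsum N0 N1 (e+1) (fun k => g (e+1) * h k - h (e+1) * g k) := by
    have hid : Hsum N0 N1 (e+1) (fun k => g (e+1) * h k - h (e+1) * g k) =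
        iota (g (e+1)) * Hsum N0 N1 (e+1) h - iota (h (e+1)) * Hsum N0 N1 (e+1) g := by
      unfold Hsum
      rw [Finset.mul_sum, Finset.mul_sum, ← Finset.sum_sub_distrib]
      refine Finset.sum_congr rfl fun k hk => ?_
      rw [map_sub, map_mul, map_mul]
      ring
    rw [hid]
    exact dvd_sub (Dvd.dvd.mul_left hderiv _) (Dvd.dvd.mul_left hg _)
  have hz := htop _ helim (by ring) 0 (Nat.zero_le _)
  simp only [hh] at hz
  apply no_log j (g (e+1)) (g 0) (-(c * ((e+1 : ℕ) : ℂ))) hgtop hgbot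
    (neg_ne_zero.2 (mul_ne_zero hc (Nat.cast_ne_zero.2 (Nat.succ_ne_zero e))))
  have e3 : (C (c * ((0 : ℕ) : ℂ)) : MvPolynomial (Fin n) ℂ) = 0 := by simp
  rw [e3] at hz
  have e4 : (C (-(c * ((e+1 : ℕ) : ℂ))) : MvPolynomial (Fin n) ℂ) = - C (c * ((e+1 : ℕ) : ℂ)) := by
    simp
  rw [e4]
  linear_combination hz

end Helper34.AC
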